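import Pool.Agent.H622R2.StrongDivRed
import Pool.Agent.NPC.Sat
import Pool.Agent.NPC.Dec

/-!
# Recognising strongly 2-divisible graphs is coNP-hard

The decision problem has as input a finite simple graph, given by an adjacency matrix
`M : List (List Bool)`; `matGraph M` is the graph.  The question is whether every induced subgraph
has a colouring with two colours in which no maximal clique with at least two vertices is
monochromatic.

Reduction from the complement of 3SAT.  The main vertices are vertices `A i` and `B i` for the
clauses, a vertex `E`, and the literals; all of them are joined by cliques which correspond to
choices of literals, and paths with two inner vertices force given pairs of main vertices to have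
equal colours.  If an assignment satisfies the formula, then deleting the false literals gives an
induced subgraph without a 2-clique-colouring; if the formula is unsatisfiable, then every induced
subgraph has one.
-/

namespace Pool.Agent.Results.MP_65ccf5_lc.StronglyDivisibleCoNPHard

open Pool.Agent.NPC Pool.Agent.H622R2

/-- Recognising strongly 2-divisible graphs is `coNP`-hard under polynomial-time many-one
reductions. -/
theorem result : CoNPHardP (fun M : List (List Bool) => StronglyDivisible 2 (matGraph M)) :=
  (HardI.trans (Q := fun M : List (List Bool) => ¬ StronglyDivisible 2 (matGraph M)) hardI_SAT3
    sdRed_poly (fun φ => sdRed_correct φ)).toCoNPHardP

end Pool.Agent.Results.MP_65ccf5_lc.StronglyDivisibleCoNPHard
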